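import Pool.Agent.helper64.OT.SpecM

/-!
# Project OT (MP_f6e9a2_nt), row HHS: the sum of the values `HH`
-/

set_option autoImplicit false

namespace Pool.Agent.OT

open Finset

theorem HHS_conj {p : ℕ} [Fact p.Prime] (χ : MulChar (ZMod p) ℂ) (u : ZMod p) :
    (starRingEnd ℂ) (χ u) = χ u⁻¹ := by
  have h1 : star (χ u) = χ⁻¹ u := MulChar.star_apply' χ u
  rw [starRingEnd_apply, h1, MulChar.inv_apply']

theorem HHS_sq {p : ℕ} [Fact p.Prime] (χ : MulChar (ZMod p) ℂ) (u : ZMod p) :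
    χ u * (starRingEnd ℂ) (χ u) = if u = 0 then 0 else 1 := by
  rw [HHS_conj, ← map_mul]
  by_cases h : u = 0
  · rw [if_pos h, h, zero_mul, MulChar.map_zero]
  · rw [if_neg h, mul_inv_cancel₀ h, MulChar.map_one]

theorem HHS_off {p : ℕ} [Fact p.Prime] (χ : MulChar (ZMod p) ℂ) (hχ : χ ≠ 1) (h : ZMod p) (hh : h ≠ 0) :
    ∑ t : ZMod p, χ t * (starRingEnd ℂ) (χ (t + h)) = -1 := by
  have h0 : ∑ t : ZMod p, χ t * (starRingEnd ℂ) (χ (t + h)) =
      ∑ u : ZMod p, χ (u - h) * (starRingEnd ℂ) (χ u) := by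
    refine Fintype.sum_equiv (Equiv.addRight h) _ _ fun t => ?_
    show _ = χ (t + h - h) * (starRingEnd ℂ) (χ (t + h))
    rw [add_sub_cancel_right]
  have h1 : ∀ u : ZMod p, χ (u - h) * (starRingEnd ℂ) (χ u) = χ (1 - h * u⁻¹) - if u = 0 then 1 else 0 := by
    intro u
    by_cases hu : u = 0
    · rw [if_pos hu, hu, MulChar.map_zero, map_zero, mul_zero, inv_zero, mul_zero, sub_zero, MulChar.map_one, sub_self]
    · rw [if_neg hu, HHS_conj, ← map_mul, sub_mul, mul_inv_cancel₀ hu, sub_zero]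
  have h2 : ∑ u : ZMod p, χ (1 - h * u⁻¹) = ∑ w : ZMod p, χ w := by
    refine Fintype.sum_equiv (((Equiv.inv (ZMod p)).trans (Equiv.mulLeft₀ h hh)).trans (Equiv.subLeft 1)) _ _
      fun u => ?_
    rfl
  rw [h0, Finset.sum_congr rfl fun u _ => h1 u, Finset.sum_sub_distrib, h2, MulChar.sum_eq_zero_of_ne_one hχ,
    Finset.sum_ite_eq' univ (0 : ZMod p) fun _ => (1 : ℂ), if_pos (Finset.mem_univ _), zero_sub]

theorem HHS_K {p : ℕ} [Fact p.Prime] (χ : MulChar (ZMod p) ℂ) (hχ : χ ≠ 1) (z z' : ZMod p) :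
    ∑ lam : ZMod p, χ (z - lam) * (starRingEnd ℂ) (χ (z' - lam)) = (if z = z' then (p : ℂ) else 0) - 1 := by
  have h0 : ∑ lam : ZMod p, χ (z - lam) * (starRingEnd ℂ) (χ (z' - lam)) =
      ∑ t : ZMod p, χ t * (starRingEnd ℂ) (χ (t + (z' - z))) := by
    refine Fintype.sum_equiv (Equiv.subLeft z) _ _ fun lam => ?_
    show _ = χ (z - lam) * (starRingEnd ℂ) (χ (z - lam + (z' - z)))
    rw [show z - lam + (z' - z) = z' - lam by ring]
  rw [h0]
  by_cases h : z = z'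
  · rw [if_pos h, h, sub_self]
    have h1 : ∀ t : ZMod p, χ t * (starRingEnd ℂ) (χ (t + 0)) = 1 - if t = 0 then 1 else 0 := by
      intro t
      rw [add_zero, HHS_sq]
      by_cases ht : t = 0
      · rw [if_pos ht, if_pos ht, sub_self]
      · rw [if_neg ht, if_neg ht, sub_zero]
    rw [Finset.sum_congr rfl fun t _ => h1 t, Finset.sum_sub_distrib, Finset.sum_const, Finset.card_univ, ZMod.card,
      nsmul_eq_mul, mul_one, Finset.sum_ite_eq' univ (0 : ZMod p) fun _ => (1 : ℂ), if_pos (Finset.mem_univ _)]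
  · rw [if_neg h, zero_sub]
    exact HHS_off χ hχ (z' - z) (sub_ne_zero.2 (Ne.symm h))

theorem HHS : HHS_stmt := by
  intro p _ χ hχ
  obtain ⟨G, hG⟩ : ∃ G : ZMod p → ℂ, G = fun z => χ z * (starRingEnd ℂ) (χ (z - 1)) := ⟨_, rfl⟩
  have h1 : ∀ lam : ZMod p, ((HH χ lam : ℝ) : ℂ) =
      ∑ z : ZMod p, ∑ z' : ZMod p, G z * (starRingEnd ℂ) (G z') *
        (χ (z - lam) * (starRingEnd ℂ) (χ (z' - lam))) := by
    intro lam
    have h2 : ∑ z : ZMod p, χ z * χ (z - lam) * (starRingEnd ℂ) (χ (z - 1)) = ∑ z : ZMod p, G z * χ (z - lam) := by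
      refine Finset.sum_congr rfl fun z _ => ?_
      rw [hG]
      ring
    unfold HH
    rw [h2, Complex.ofReal_pow, ← Complex.mul_conj', map_sum, Finset.sum_mul_sum]
    refine Finset.sum_congr rfl fun z _ => Finset.sum_congr rfl fun z' _ => ?_
    rw [map_mul]
    ring
  have h3 : ((∑ lam : ZMod p, HH χ lam : ℝ) : ℂ) =
      (p : ℂ) * ∑ z : ZMod p, G z * (starRingEnd ℂ) (G z) - (∑ z : ZMod p, G z) * (starRingEnd ℂ) (∑ z : ZMod p, G z) := by
    push_cast
    rw [Finset.sum_congr rfl fun lam _ => h1 lam, Finset.sum_comm]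
    have h4 : ∀ z : ZMod p, ∑ lam : ZMod p, ∑ z' : ZMod p, G z * (starRingEnd ℂ) (G z') *
        (χ (z - lam) * (starRingEnd ℂ) (χ (z' - lam))) =
        (p : ℂ) * (G z * (starRingEnd ℂ) (G z)) - G z * ∑ z' : ZMod p, (starRingEnd ℂ) (G z') := by
      intro z
      rw [Finset.sum_comm]
      have h5 : ∀ z' : ZMod p, ∑ lam : ZMod p, G z * (starRingEnd ℂ) (G z') *
          (χ (z - lam) * (starRingEnd ℂ) (χ (z' - lam))) =
          (if z = z' then (p : ℂ) * (G z * (starRingEnd ℂ) (G z')) else 0) - G z * (starRingEnd ℂ) (G z') := by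
        intro z'
        rw [← Finset.mul_sum, HHS_K χ hχ z z', mul_sub, mul_one]
        by_cases h : z = z'
        · rw [if_pos h, if_pos h, mul_comm]
        · rw [if_neg h, if_neg h, mul_zero]
      rw [Finset.sum_congr rfl fun z' _ => h5 z', Finset.sum_sub_distrib, Finset.sum_ite_eq univ z,
        if_pos (Finset.mem_univ _), Finset.mul_sum]
    rw [Finset.sum_congr rfl fun z _ => h4 z, Finset.sum_sub_distrib, Finset.mul_sum, ← Finset.sum_mul, map_sum]
  have h6 : ∀ z : ZMod p, ‖G z‖ ^ 2 ≤ 1 - (if z = 0 then 1 else 0) - (if z = 1 then 1 else 0) := by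
    intro z
    have hn : ∀ u : ZMod p, ‖χ u‖ ^ 2 = if u = 0 then 0 else 1 := by
      intro u
      have h7 := HHS_sq χ u
      rw [Complex.mul_conj'] at h7
      by_cases h : u = 0
      · rw [if_pos h] at h7 ⊢
        exact_mod_cast h7
      · rw [if_neg h] at h7 ⊢
        exact_mod_cast h7
    have h8 : ‖G z‖ ^ 2 = ‖χ z‖ ^ 2 * ‖χ (z - 1)‖ ^ 2 := by
      rw [hG]
      show ‖χ z * (starRingEnd ℂ) (χ (z - 1))‖ ^ 2 = _
      rw [norm_mul, Complex.norm_conj, mul_pow]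
    rw [h8, hn, hn]
    by_cases a0 : z = 0
    · rw [if_pos a0, if_pos a0, if_neg (show ¬ z = 1 by rw [a0]; exact zero_ne_one)]
      norm_num
    · rw [if_neg a0, if_neg a0]
      by_cases a1 : z = 1
      · rw [if_pos a1, if_pos (by rw [a1, sub_self])]
        norm_num
      · rw [if_neg a1, if_neg (sub_ne_zero.2 a1)]
        norm_num
  have h9 : ∑ z : ZMod p, ‖G z‖ ^ 2 ≤ (p : ℝ) - 2 := by
    refine (Finset.sum_le_sum fun z _ => h6 z).trans (le_of_eq ?_)
    rw [Finset.sum_sub_distrib, Finset.sum_sub_distrib, Finset.sum_const, Finset.card_univ, ZMod.card, nsmul_eq_mul,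
      mul_one, Finset.sum_ite_eq' univ (0 : ZMod p) fun _ => (1 : ℝ), if_pos (Finset.mem_univ _),
      Finset.sum_ite_eq' univ (1 : ZMod p) fun _ => (1 : ℝ), if_pos (Finset.mem_univ _)]
    ring
  have h10 : ∑ lam : ZMod p, HH χ lam = (p : ℝ) * ∑ z : ZMod p, ‖G z‖ ^ 2 - ‖∑ z : ZMod p, G z‖ ^ 2 := by
    apply Complex.ofReal_injective
    rw [h3, Complex.mul_conj']
    push_cast
    congr 2
    refine Finset.sum_congr rfl fun z _ => ?_
    rw [Complex.mul_conj']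
  rw [h10]
  have h11 : 0 ≤ ‖∑ z : ZMod p, G z‖ ^ 2 := by positivity
  have h12 : (p : ℝ) * ∑ z : ZMod p, ‖G z‖ ^ 2 ≤ (p : ℝ) * (p - 2) := mul_le_mul_of_nonneg_left h9 (Nat.cast_nonneg _)
  linarith

end Pool.Agent.OT
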