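import Mathlib
import Pool.Agent.helper64.OT.SpecW

/-!
# Project OT (MP_f6e9a2_nt), block W: row WFD

Extension fields in which a given polynomial splits.
-/

set_option autoImplicit false

namespace Pool.Agent.OT

open Finset Polynomial

theorem WFD : WFD_stmt := by
  intro p _ f
  let K0 := f.SplittingField
  have i1 : Module.Finite (ZMod p) K0 := inferInstance
  have i2 : Finite K0 := Module.finite_of_finite (ZMod p)
  have i3 : CharP K0 p := charP_of_injective_algebraMap (algebraMap (ZMod p) K0).injective p
  refine ⟨Module.finrank (ZMod p) K0, Module.finrank_pos, fun s hs => ?_⟩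
  have i4 : NeZero s := ⟨hs.ne'⟩
  refine ⟨FiniteField.Extension K0 p s, inferInstance, Fintype.ofFinite _, inferInstance,
    FiniteField.finrank_zmod_extension K0 p s, ?_⟩
  have h1 : (f.map (algebraMap (ZMod p) K0)).Splits := SplittingField.splits f
  have h2 := h1.map (algebraMap K0 (FiniteField.Extension K0 p s))
  rw [Polynomial.map_map, ← IsScalarTower.algebraMap_eq] at h2
  exact h2

end Pool.Agent.OT
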